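import Pool.Agent.H92.EM.TC
import Pool.Agent.H80.EQ.PRC
import Pool.Agent.H85.EM.MKJ

/-!
Board emd_modules, row MPC: escape (after the row EPC of the board ehd_modules, file
Pool/Agent/H10/EHD/EPC.lean, and prc_core of Pool/Agent/H80/EQ/PRC.lean).
-/

namespace Pool.Agent.H85.EM

open scoped BigOperators ComplexConjugate ContDiff ComplexOrder
open MeasureTheory
open Pool.Agent.H92.EQ Pool.Agent.H92.EM Pool.Agent.H80.EQ

/-- The walk which starts with law `σ'` makes no visit with probability `3/4`. -/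
theorem mpc_core (hPMK : T_PMK) (hPSA : T_PSA) (hPVI : T_PVI) (hD12 : T_D12) (hP1 : T_P1)
    (hL1 : T_L1) {k d M : ℕ} {F : Fin (k + 1) → MvPolynomial (Fin (k + 1)) ℂ}
    {P : MvPolynomial (Fin (k + 1)) ℂ} {CF : ℝ} (hd : 2 ≤ d) (hF : IsH d F)
    (hP : P.IsHomogeneous M) (hCF : 0 < CF) {r : ℝ} (hr : 0 < r) (hr2 : r ≤ 1 / 2)
    (hlog : 16 * CF ≤ Real.log (1 / r)) {L' : ℕ}
    (hL : (L' : ℝ) ≤ 1 / (16 * CF) * Real.log (1 / r)) {σ' : Form (Fin (k + 1)) k}
    (hσ' : ProjForm σ') (hm : 0 ≤ mass 0 σ') {j0 : ℕ} (hj1 : 1 ≤ j0)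
    (hj0 : ∀ n : ℕ,
      ∑ j ∈ Finset.range n, (if j0 ≤ j then (j : ℝ) / (d : ℝ) ^ j else 0) ≤ 1 / (8 * CF))
    (h0 : ∀ j < j0, EE F d j σ' (fun x => noV F (vis P M r) j 0 j x * vis P M r x) = 0)
    (hFV : ∀ (r : ℝ) (j : ℕ), 0 < r → r ≤ 1 / 2 → 1 ≤ j →
      EE F d j σ' (fun x => noV F (vis P M r) j 0 j x * vis P M r x) ≤
        CF * (j / (d : ℝ) ^ j + 1 / Real.log (1 / r)) * mass 0 σ') :
    3 / 4 * mass 0 σ' ≤ EE F d L' σ' (noV F (vis P M r) L' 0 (L' + 1)) := by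
  have hd1 : 1 ≤ d := by omega
  obtain ⟨hv0, hv1, -, -⟩ := hPVI (k + 1) M P r hP hr
  set v := vis P M r with hv
  have hlogp : 0 < Real.log (1 / r) := lt_of_lt_of_le (by positivity) hlog
  have hSn : ProjForm (Sn F d L' σ') := (hD12 (k + 1) d F hd1 hF 0 L').2.2.2.2 k σ' hσ'
  have hφ : ∀ j, Hom0 (fun y => noV F v j 0 j y * v y) := fun j =>
    prc_hom_mul (prc_hom_noV hL1 hD12 hd1 hF hv0 j 0 j) hv0
  have hφc : ∀ j, Hom0 (fun x => (fun y => noV F v j 0 j y * v y) (ev (iter F (L' - j)) x)) :=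
    fun j => prc_hom_comp hL1 (hD12 (k + 1) d F hd1 hF 0 (L' - j)).1 (hφ j)
  have e1 : (noV F v L' 0 (L' + 1)) = fun x => 1 - ∑ j ∈ Finset.range (L' + 1),
      (fun y => noV F v j 0 j y * v y) (ev (iter F (L' - j)) x) := by
    funext x
    have h1 := (hPSA (fun i => v (ev (iter F (L' - i)) x)) 0 0 (L' + 1) (Nat.zero_le _)).1
    have h2 : noV F v L' 0 (L' + 1) x =
        ∏ i ∈ Finset.Ico 0 (L' + 1), (1 - (fun i => v (ev (iter F (L' - i)) x)) i) := rfl
    rw [← h2] at h1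
    have h3 : ∑ j ∈ Finset.Ico 0 (L' + 1), (∏ i ∈ Finset.Ico 0 j,
        (1 - (fun i => v (ev (iter F (L' - i)) x)) i)) * (fun i => v (ev (iter F (L' - i)) x)) j =
        ∑ j ∈ Finset.range (L' + 1),
          (fun y => noV F v j 0 j y * v y) (ev (iter F (L' - j)) x) := by
      rw [Finset.range_eq_Ico]
      refine Finset.sum_congr rfl fun j hj => ?_
      have hj' : j ≤ L' := Nat.lt_succ_iff.mp (Finset.mem_Ico.mp hj).2
      have h4 := prc_noV_comp hD12 hd1 hF v hj' x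
      simp only
      rw [← h4]
      rfl
    rw [h3] at h1
    linarith
  rw [e1, prc_EE_sub hP1 hSn (Finset.range (L' + 1))
    (fun j x => (fun y => noV F v j 0 j y * v y) (ev (iter F (L' - j)) x))
    (fun j _ => (hφc j).smooth.continuousOn)]
  have pm := hPMK k d L' 0 F σ' hd hF hσ'
  rw [pm.2.2.2.2.2]
  have e2 : ∀ j ∈ Finset.range (L' + 1), EE F d L' σ'
      (fun x => (fun y => noV F v j 0 j y * v y) (ev (iter F (L' - j)) x)) ≤
      CF * (if j0 ≤ j then (j : ℝ) / (d : ℝ) ^ j else 0) * mass 0 σ' +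
        CF / Real.log (1 / r) * mass 0 σ' := by
    intro j hj
    have hj' : j ≤ L' := Nat.lt_succ_iff.mp (Finset.mem_range.mp hj)
    have h1 := (hPMK k d j (L' - j) F σ' hd hF hσ').2.1 (fun y => noV F v j 0 j y * v y) (hφ j)
    have h2 : j + (L' - j) = L' := by omega
    rw [h2] at h1
    rw [h1]
    have h3 : 0 ≤ CF / Real.log (1 / r) * mass 0 σ' := by positivity
    by_cases hc : j0 ≤ j
    · rw [if_pos hc]
      have h4 := hFV r j hr hr2 (hj1.trans hc)
      refine h4.trans (le_of_eq ?_)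
      ring
    · rw [if_neg hc, h0 j (by omega), mul_zero, zero_mul, zero_add]
      exact h3
  have e3 := Finset.sum_le_sum e2
  rw [Finset.sum_add_distrib, ← Finset.sum_mul, ← Finset.mul_sum, Finset.sum_const,
    Finset.card_range, nsmul_eq_mul] at e3
  have e4 : CF * (∑ j ∈ Finset.range (L' + 1),
      (if j0 ≤ j then (j : ℝ) / (d : ℝ) ^ j else 0)) * mass 0 σ' ≤ 1 / 8 * mass 0 σ' := by
    refine mul_le_mul_of_nonneg_right ?_ hm
    calc CF * (∑ j ∈ Finset.range (L' + 1),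
        (if j0 ≤ j then (j : ℝ) / (d : ℝ) ^ j else 0)) ≤ CF * (1 / (8 * CF)) :=
          mul_le_mul_of_nonneg_left (hj0 _) hCF.le
      _ = 1 / 8 := by field_simp
  have e5 : ((L' + 1 : ℕ) : ℝ) * (CF / Real.log (1 / r) * mass 0 σ') ≤ 1 / 8 * mass 0 σ' := by
    rw [← mul_assoc]
    refine mul_le_mul_of_nonneg_right ?_ hm
    push_cast
    have h1 : (L' : ℝ) * CF ≤ 1 / 16 * Real.log (1 / r) := by
      calc (L' : ℝ) * CF ≤ (1 / (16 * CF) * Real.log (1 / r)) * CF :=
            mul_le_mul_of_nonneg_right hL hCF.le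
        _ = 1 / 16 * Real.log (1 / r) := by field_simp
    rw [mul_div_assoc', div_le_iff₀ hlogp]
    linarith
  linarith

theorem mpc_eval_zero {n m : ℕ} {G : MvPolynomial (Fin n) ℂ} (hG : G.IsHomogeneous m)
    (hm : 1 ≤ m) : MvPolynomial.eval (0 : Fin n → ℂ) G = 0 := by
  have h1 := Pool.Agent.H52.EQ.eval_smul' hG (0 : ℂ) (0 : Fin n → ℂ)
  rw [smul_zero, zero_pow (by omega), zero_mul] at h1
  exact h1

theorem mpc_point {k : ℕ} {G : MvPolynomial (Fin (k + 1)) ℂ} (b : Fin (k + 1))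
    (hG : ¬ MvPolynomial.X b ∣ G) :
    ∃ z : Fin (k + 1) → ℂ, z b = 0 ∧ MvPolynomial.eval z G ≠ 0 := by
  by_contra hno
  push Not at hno
  apply hG
  let f : Fin (k + 1) → MvPolynomial (Fin (k + 1)) ℂ :=
    fun i => if i = b then 0 else MvPolynomial.X i
  have h1 : MvPolynomial.bind₁ f G = 0 := by
    refine MvPolynomial.funext fun z => ?_
    rw [map_zero]
    have h2 := MvPolynomial.eval₂Hom_bind₁ (RingHom.id ℂ) z f G
    have h3 : MvPolynomial.eval z (MvPolynomial.bind₁ f G) =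
        MvPolynomial.eval (fun i => MvPolynomial.eval z (f i)) G := h2
    rw [h3]
    refine hno _ ?_
    simp [f]
  let I : Ideal (MvPolynomial (Fin (k + 1)) ℂ) := Ideal.span {MvPolynomial.X b}
  have h2 : (Ideal.Quotient.mkₐ ℂ I).comp (MvPolynomial.bind₁ f) = Ideal.Quotient.mkₐ ℂ I := by
    refine MvPolynomial.algHom_ext fun i => ?_
    rw [AlgHom.comp_apply, MvPolynomial.bind₁_X_right]
    by_cases hi : i = b
    · subst hi
      simp only [f, if_true, map_zero]
      symm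
      exact Ideal.Quotient.eq_zero_iff_mem.2 (Ideal.mem_span_singleton_self _)
    · simp only [f, if_neg hi]
  have h3 := congrArg (fun g => g G) h2
  simp only [AlgHom.comp_apply, h1, map_zero] at h3
  exact Ideal.mem_span_singleton.1 (Ideal.Quotient.eq_zero_iff_mem.1 h3.symm)

/-- Row MPC. -/
theorem pf_MPC (hMPM : T_MPM) (hEPD : Pool.Agent.H92.EHD.T_EPD) (hPMK : T_PMK)
    (hPDE : T_PDE) (hPVI : T_PVI)
    (hPLC : T_PLC) (hPSA : T_PSA) (hD12 : T_D12) (hP1 : T_P1) (hP3 : T_P3) (hP5 : T_P5)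
    (hL1 : T_L1) (hL6 : T_L6) (hKG2 : T_KG2) : T_MPC := by
  intro m k d M κ F P CF hm hk hd hFE hst hNh hNp hP0 hNx hCF hFV
  have hF : IsH d F := hFE.isH
  have hsti : ∀ l : ℕ, ev (iter F l) ⁻¹' (Zk m κ) ⊆ Zk m κ := by
    intro l
    induction l with
    | zero =>
      intro z hz
      have h1 : ev (iter F 0) z = z := by
        funext i
        exact MvPolynomial.eval_X i
      rw [Set.mem_preimage, h1] at hz
      exact hz
    | succ n ih =>
      intro z hz
      refine ih ?_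
      rw [Set.mem_preimage]
      refine hst ?_
      rw [Set.mem_preimage] at hz ⊢
      rw [← Pool.Agent.H43.EQ.KJ_ev_succ]
      exact hz
  have hd1 : 1 ≤ d := by omega
  have hdR : (1 : ℝ) ≤ d := by exact_mod_cast hd1
  have hk0 : 0 < k + 1 := by omega
  have hIt : ∀ l, IsH (d ^ l) (iter F l) := fun l => (hD12 (k + 1) d F hd1 hF 0 l).1
  obtain ⟨j0, hj1, hj0⟩ := prc_tail hd (ε := 1 / (8 * CF)) (by positivity)
  choose hp mp hp0 hph hpx hpd using fun l : ℕ => hMPM m k (d ^ l) M (iter F l) P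
    (Nat.one_le_pow _ _ (by omega)) ⟨hIt l, fun i hi => mkj_iter_diag hFE l i hi⟩ hNh hP0 hNx
  obtain ⟨G, hGdef⟩ : ∃ G, G = P * ∏ l ∈ Finset.range j0, hp l := ⟨_, rfl⟩
  obtain ⟨mG, hmdef⟩ : ∃ mG, mG = M + ∑ l ∈ Finset.range j0, mp l := ⟨_, rfl⟩
  have hGx : ∀ b : Fin (k + 1), (b : ℕ) < m → ¬ MvPolynomial.X b ∣ G := by
    intro b hb
    rw [hGdef]
    have hpr : Prime (MvPolynomial.X b : MvPolynomial (Fin (k + 1)) ℂ) :=
      MvPolynomial.X_prime
    intro hdv
    rcases hpr.dvd_or_dvd hdv with h1 | h1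
    · exact hNx b hb h1
    · obtain ⟨l, _, hl⟩ := (Prime.dvd_finsetProd_iff hpr _).1 h1
      exact hpx l b hb hl
  have hG0 : G ≠ 0 := by
    rw [hGdef]
    exact mul_ne_zero hP0 (Finset.prod_ne_zero_iff.2 fun l _ => hp0 l)
  have hGh : G.IsHomogeneous mG := by
    rw [hGdef, hmdef]
    exact hNh.mul (MvPolynomial.IsHomogeneous.prod _ _ _ fun l _ => hph l)
  have hm1 : 1 ≤ mG := by
    omega
  have hGd : ∀ l < j0, P ∣ MvPolynomial.bind₁ (iter F l) G := by
    intro l hl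
    refine (hpd l).trans (map_dvd (MvPolynomial.bind₁ (iter F l)) ?_)
    rw [hGdef]
    exact Dvd.dvd.mul_left (Finset.dvd_prod_of_mem hp (Finset.mem_range.mpr hl)) P
  have hrat : ∀ l : ℕ, ∃ c1 : ℝ, 0 < c1 ∧ (l < j0 → ∀ x : Fin (k + 1) → ℂ, x ≠ 0 →
      nv G mG (ev (iter F l) x) ≤ c1 * nv P M x) := by
    intro l
    by_cases hl : l < j0
    · obtain ⟨c1, h1, h2⟩ := prc_ratio hL6 (hIt l) hGh hNh (hGd l hl)
      exact ⟨c1, h1, fun _ => h2⟩
    · exact ⟨1, one_pos, fun h => absurd h hl⟩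
  choose c1 hc1 hc1' using hrat
  have hnv0 : ∀ x : Fin (k + 1) → ℂ, 0 ≤ nv P M x := fun x =>
    div_nonneg (norm_nonneg _) (pow_nonneg (Real.sqrt_nonneg _) _)
  obtain ⟨C1, hC1def⟩ : ∃ C1 : ℝ, C1 = 1 + ∑ l ∈ Finset.range j0, c1 l := ⟨_, rfl⟩
  have hC1 : 0 < C1 := by
    rw [hC1def]
    have := Finset.sum_nonneg fun l (_ : l ∈ Finset.range j0) => (hc1 l).le
    linarith
  have hC1' : ∀ l < j0, ∀ x : Fin (k + 1) → ℂ, x ≠ 0 →
      nv G mG (ev (iter F l) x) ≤ C1 * nv P M x := by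
    intro l hl x hx
    refine (hc1' l hl x hx).trans (mul_le_mul_of_nonneg_right ?_ (hnv0 x))
    have := Finset.single_le_sum (f := c1) (fun l _ => (hc1 l).le) (Finset.mem_range.mpr hl)
    rw [hC1def]
    linarith
  obtain ⟨t, s, A, h, e, C, hInv, hzer, hdes⟩ := hEPD (k + 1) d mG F G hk0 hd hF hm1 hGh hG0
  have hC0 : 0 < C := lt_of_lt_of_le one_pos hInv.one
  have hD0 : (0 : ℝ) < ((t : ℝ) + 1) * (d : ℝ) ^ ((k + 1) * t) := by positivity
  have hD1 : (1 : ℝ) ≤ ((t : ℝ) + 1) * (d : ℝ) ^ ((k + 1) * t) := by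
    have h1 : (1 : ℝ) ≤ (d : ℝ) ^ ((k + 1) * t) := one_le_pow₀ hdR
    have h2 : (0 : ℝ) ≤ t := Nat.cast_nonneg t
    nlinarith
  refine ⟨t, s, A, h, e, C, 3 / 4 / (((t : ℝ) + 1) * (d : ℝ) ^ ((k + 1) * t)),
    1 / (5 * C * C1), min (1 / 2) (Real.exp (-(16 * CF))), 1 / (16 * CF), hInv, ?_,
    by positivity, ?_, by positivity, ?_, min_le_left _ _, by positivity, ?_⟩
  · intro b hb
    obtain ⟨z, hz0, hzG⟩ := mpc_point b (hGx b hb)
    have hz : z ≠ 0 := by
      rintro rfl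
      exact hzG (mpc_eval_zero hGh hm1)
    refine ⟨z, hz, hz0, ?_⟩
    by_contra hno
    push Not at hno
    exact hzG (hzer z hz hno)
  · rw [div_lt_one hD0]
    linarith
  · exact lt_min (by norm_num) (Real.exp_pos _)
  intro r L σ hr hr0 htL hL hσ hZ hK
  have hr2 : r ≤ 1 / 2 := hr0.trans (min_le_left _ _)
  have hlog : 16 * CF ≤ Real.log (1 / r) := by
    have h1 : r ≤ Real.exp (-(16 * CF)) := hr0.trans (min_le_right _ _)
    have h2 := Real.log_le_log hr h1
    rw [Real.log_exp] at h2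
    rw [one_div, Real.log_inv]
    linarith
  obtain ⟨hv0, hv1, -, hv3⟩ := hPVI (k + 1) M P r hNh hr
  have hs1 : 0 < 2 * C1 * r := by positivity
  obtain ⟨hw0, hw1, hw2, hw3⟩ := hPVI (k + 1) mG G (2 * C1 * r) hGh hs1
  obtain ⟨g, hg⟩ : ∃ g : (Fin (k + 1) → ℂ) → ℝ, g = fun z => 1 - vis G mG (2 * C1 * r) z :=
    ⟨_, rfl⟩
  have hgh : Hom0 g := by
    rw [hg]
    exact prc_hom_one_sub hw0
  have hg01 : ∀ z, 0 ≤ g z ∧ g z ≤ 1 := by
    intro z
    rw [hg]
    constructor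
    · linarith [(hw1 z).2]
    · linarith [(hw1 z).1]
  have hg1 : ∀ z, 2 * (2 * C1 * r) < nv G mG z → 1 ≤ g z := by
    intro z hz
    have h1 : vis G mG (2 * C1 * r) z = 0 := by
      by_contra hne
      linarith [hw3 z hne]
    rw [hg]
    simp only
    rw [h1, sub_zero]
  have hg0 : ∀ z, g z ≠ 0 → 2 * C1 * r < nv G mG z := by
    intro z hz
    by_contra hle
    push Not at hle
    apply hz
    rw [hg]
    simp only
    rw [hw2 z hle, sub_self]
  have hm0 : 0 ≤ mass 0 σ := (hP5 (k + 1) k 0 d σ (by omega) hσ).2.2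
  have hLH : ∀ j : Fin 0, LH ((fun _ : Fin 0 => (1 : ℝ)) j)
      ((fun _ : Fin 0 => (ell : (Fin (k + 1) → ℂ) → ℝ)) j) := fun j => j.elim0
  have hPot : ∀ j : Fin 0, Pot ((fun _ : Fin 0 => (ell : (Fin (k + 1) → ℂ) → ℝ)) j) :=
    fun j => j.elim0
  have hQ := (hP3 (k + 1) k 0 σ (fun _ => ell) (by omega) hσ hPot).1
  -- Claim 1
  have claim1 : ∃ l ≤ t, mass 0 σ / (((t : ℝ) + 1) * (d : ℝ) ^ ((k + 1) * t)) ≤
      EE F d l σ g := by
    by_contra hno
    push Not at hno
    have hint : ∀ l, IntegrableOn (fun z =>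
        Set.indicator {z | ∃ x, ev (iter F l) x = z ∧ 1 ≤ g x} (fun _ => (1 : ℝ)) z *
          Q σ (fun _ : Fin 0 => ell) z) {z : Fin (k + 1) → ℂ | 0 ≤ ell z ∧ ell z < 1} := by
      intro l
      refine (hP1 (k + 1) k 0 σ (fun _ => ell) (fun _ => 1) (by omega) hσ hLH).1 _ 1
        (measurable_const.indicator (prc_meas _ _ hgh.smooth.continuousOn)) ?_
      intro z _
      by_cases hz : z ∈ {z | ∃ x, ev (iter F l) x = z ∧ 1 ≤ g x}
      · rw [Set.indicator_of_mem hz, abs_one]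
      · rw [Set.indicator_of_notMem hz, abs_zero]
        exact zero_le_one
    have hint1 : IntegrableOn (fun z => (1 : ℝ) * Q σ (fun _ : Fin 0 => ell) z)
        {z : Fin (k + 1) → ℂ | 0 ≤ ell z ∧ ell z < 1} :=
      (hP1 (k + 1) k 0 σ (fun _ => ell) (fun _ => 1) (by omega) hσ hLH).1 (fun _ => 1) 1
        measurable_const (fun z _ => by rw [abs_one])
    have cov : mass 0 σ ≤ ∑ l ∈ Finset.range (t + 1),
        pair (Set.indicator {z | ∃ x, ev (iter F l) x = z ∧ 1 ≤ g x} (fun _ => 1)) σ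
          (fun _ : Fin 0 => ell) := by
      unfold mass pair Iint
      rw [← integral_finsetSum _ fun l _ => hint l]
      refine integral_mono_ae hint1 (integrable_finsetSum _ fun l _ => hint l) ?_
      filter_upwards [ki_ne hk0 {z : Fin (k + 1) → ℂ | 0 ≤ ell z ∧ ell z < 1}] with z hz
      have hterm : ∀ l ∈ Finset.range (t + 1), 0 ≤
          Set.indicator {z | ∃ x, ev (iter F l) x = z ∧ 1 ≤ g x} (fun _ => (1 : ℝ)) z *
            Q σ (fun _ : Fin 0 => ell) z := fun l _ =>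
        mul_nonneg (Set.indicator_nonneg (fun _ _ => zero_le_one) _) (hQ z hz)
      by_cases hzK : z ∈ {z | r / (1 / (5 * C * C1)) ≤ phi h e z ^ A}
      · obtain ⟨l, hlt, x, hx, hxp⟩ := hdes z hz
        have h1 : r / (1 / (5 * C * C1)) ≤ phi h e z ^ A := hzK
        have h2 : 1 ≤ g x := by
          refine hg1 x ?_
          have h3 : C * (5 * C1 * r) ≤ C * nv G mG x := by
            refine le_trans (le_of_eq ?_) (h1.trans hxp)
            field_simp
          have h4 := le_of_mul_le_mul_left h3 hC0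
          have h5 : 0 < C1 * r := by positivity
          linarith
        have h3 := Finset.single_le_sum hterm (Finset.mem_range.mpr (Nat.lt_succ_of_le hlt))
        refine le_trans (le_of_eq ?_) h3
        have h4 : z ∈ {z | ∃ x, ev (iter F l) x = z ∧ 1 ≤ g x} := ⟨x, hx, h2⟩
        rw [Set.indicator_of_mem h4]
      · have h1 : Q σ (fun _ : Fin 0 => ell) z = 0 := by
          have h2 := ki_Q_S (S := σ) (S' := σ) (fun _ : Fin 0 => ell) z 0 (fun I J => by
            rw [hK z hz hzK I J]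
            simp)
          rw [h2, zero_mul]
        rw [h1, mul_zero]
        exact Finset.sum_nonneg fun l hl => by
          have := hterm l hl
          rwa [h1] at this
    have plc : ∀ l ∈ Finset.range (t + 1),
        pair (Set.indicator {z | ∃ x, ev (iter F l) x = z ∧ 1 ≤ g x} (fun _ => 1)) σ
          (fun _ : Fin 0 => ell) ≤ (d : ℝ) ^ ((k + 1) * l) * EE F d l σ g := by
      intro l _
      have h1 := hPLC k (d ^ l) (iter F l) σ g (Nat.one_le_pow _ _ (by omega)) (hIt l) hσ hgh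
        (fun z _ => (hg01 z).1)
      refine h1.trans (le_of_eq ?_)
      have h2 : EE F d l σ g = ((d : ℝ) ^ (k * l))⁻¹ *
          pair g (pull (iter F l) σ) (fun _ : Fin 0 => ell) := by
        unfold EE
        refine ki_congr hk0 _ ?_
        intro z _
        rw [ki_Q_S (S := Sn F d l σ) (S' := pull (iter F l) σ) (fun _ : Fin 0 => ell) z
          ((d : ℝ) ^ (k * l))⁻¹ (fun I J => by
            unfold Sn
            push_cast
            rfl)]
        ring
      rw [h2]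
      have h3 : ((d : ℝ) ^ (k * l)) ≠ 0 := by positivity
      have h4 : (d : ℝ) ^ ((k + 1) * l) = (d : ℝ) ^ (k * l) * (d : ℝ) ^ l := by
        rw [← pow_add]
        congr 1
        ring
      rw [h4]
      push_cast
      field_simp
    have lt1 : ∑ l ∈ Finset.range (t + 1), (d : ℝ) ^ ((k + 1) * l) * EE F d l σ g <
        ∑ l ∈ Finset.range (t + 1), (d : ℝ) ^ ((k + 1) * l) *
          (mass 0 σ / (((t : ℝ) + 1) * (d : ℝ) ^ ((k + 1) * t))) := by
      refine Finset.sum_lt_sum_of_nonempty ⟨0, Finset.mem_range.mpr (by omega)⟩ ?_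
      intro l hl
      exact mul_lt_mul_of_pos_left (hno l (Nat.lt_succ_iff.mp (Finset.mem_range.mp hl)))
        (by positivity)
    have le2 : ∑ l ∈ Finset.range (t + 1), (d : ℝ) ^ ((k + 1) * l) *
          (mass 0 σ / (((t : ℝ) + 1) * (d : ℝ) ^ ((k + 1) * t))) ≤ mass 0 σ := by
      have h1 : ∀ l ∈ Finset.range (t + 1), (d : ℝ) ^ ((k + 1) * l) *
          (mass 0 σ / (((t : ℝ) + 1) * (d : ℝ) ^ ((k + 1) * t))) ≤ (d : ℝ) ^ ((k + 1) * t) *
          (mass 0 σ / (((t : ℝ) + 1) * (d : ℝ) ^ ((k + 1) * t))) := by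
        intro l hl
        refine mul_le_mul_of_nonneg_right (pow_le_pow_right₀ hdR ?_) (by positivity)
        exact Nat.mul_le_mul_left _ (Nat.lt_succ_iff.mp (Finset.mem_range.mp hl))
      refine (Finset.sum_le_sum h1).trans (le_of_eq ?_)
      rw [Finset.sum_const, Finset.card_range, nsmul_eq_mul]
      push_cast
      have h2 : ((t : ℝ) + 1) ≠ 0 := by positivity
      have h3 : (d : ℝ) ^ ((k + 1) * t) ≠ 0 := by positivity
      field_simp
    have := (cov.trans (Finset.sum_le_sum plc)).trans_lt (lt1.trans_le le2)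
    exact lt_irrefl _ this
  obtain ⟨l, hlt, hl⟩ := claim1
  have hlL : l ≤ L := hlt.trans htL
  have hSl : ProjForm (Sn F d l σ) := (hD12 (k + 1) d F hd1 hF 0 l).2.2.2.2 k σ hσ
  have hσ' : ProjForm (dens g (Sn F d l σ)) := hPDE k g (Sn F d l σ) hSl hgh
    (fun z _ => (hg01 z).1)
  have hmass' : mass 0 (dens g (Sn F d l σ)) = EE F d l σ g :=
    (hPMK k d 0 l F σ hd hF hσ).2.2.2.1 g
  have hm' : 0 ≤ mass 0 (dens g (Sn F d l σ)) := (hP5 (k + 1) k 0 d _ (by omega) hσ').2.2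
  have h0 : ∀ j < j0, EE F d j (dens g (Sn F d l σ))
      (fun x => noV F (vis P M r) j 0 j x * vis P M r x) = 0 := by
    intro j hj
    rw [← (hPMK k d j l F σ hd hF hσ).2.2.1 g
      (fun x => noV F (vis P M r) j 0 j x * vis P M r x)]
    have h1 : EE F d (l + j) σ (fun x => g (ev (iter F j) x) *
        (noV F (vis P M r) j 0 j x * vis P M r x)) = 0 * EE F d (l + j) σ (fun _ => 1) := by
      unfold EE
      refine ki_congr hk0 0 ?_
      intro z hz
      have h2 : g (ev (iter F j) z) * (noV F (vis P M r) j 0 j z * vis P M r z) = 0 := by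
        by_cases h3 : g (ev (iter F j) z) = 0
        · rw [h3, zero_mul]
        · have h4 := hg0 _ h3
          have h5 := hC1' j hj z hz
          have h6 : 2 * r < nv P M z := by
            by_contra hle
            push Not at hle
            have : C1 * nv P M z ≤ C1 * (2 * r) := mul_le_mul_of_nonneg_left hle hC1.le
            linarith
          have h7 : vis P M r z = 0 := by
            by_contra hne
            linarith [hv3 z hne]
          rw [h7, mul_zero, mul_zero]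
      rw [h2, zero_mul, zero_mul]
    rw [h1, zero_mul]
  have hL' : ((L - l : ℕ) : ℝ) ≤ 1 / (16 * CF) * Real.log (1 / r) := by
    have : ((L - l : ℕ) : ℝ) ≤ L := by exact_mod_cast Nat.sub_le L l
    exact this.trans hL
  have hZl : InK (Zk m κ) (dens g (Sn F d l σ)) := by
    intro z hz hzK I J
    have h1 := (hKG2 (k + 1) d k l F (Zk m κ) σ (fun _ => 0) hd1 hF hZ).2.1 z hz
      (fun h => hzK (hsti l h)) I J
    show _ * _ = (0 : ℂ)
    rw [h1, mul_zero]
  have core := mpc_core hPMK hPSA hPVI hD12 hP1 hL1 hd hF hNh hCF hr hr2 hlog hL' hσ' hm' hj1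
    hj0 h0 (fun r j h1 h2 h3 => hFV r j _ h1 h2 h3 hσ' hZl)
  have e1 := (hPMK k d (L - l) l F σ hd hF hσ).2.2.1 g
    (noV F (vis P M r) (L - l) 0 (L - l + 1))
  rw [← e1] at core
  have e2 : l + (L - l) = L := by omega
  rw [e2] at core
  have e3 : EE F d L σ (fun x => g (ev (iter F (L - l)) x) *
      noV F (vis P M r) (L - l) 0 (L - l + 1) x) ≤
      EE F d L σ (noV F (vis P M r) L t (L + 1)) := by
    refine (hPMK k d L 0 F σ hd hF hσ).2.2.2.2.1 _ _
      (prc_hom_mul (prc_hom_comp hL1 (hIt (L - l)) hgh)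
        (prc_hom_noV hL1 hD12 hd1 hF hv0 _ _ _)) (prc_hom_noV hL1 hD12 hd1 hF hv0 _ _ _) ?_
    intro z _
    have h1 := (hg01 (ev (iter F (L - l)) z)).2
    have h2 := (prc_noV_mem F hv1 (L - l) 0 (L - l + 1) z).1
    have h3 := prc_noV_shift F (vis P M r) hlL z
    have h4 := prc_noV_mono F hv1 (L := L) (b := L + 1) hlt (by omega) z
    rw [h3] at h4
    calc g (ev (iter F (L - l)) z) * noV F (vis P M r) (L - l) 0 (L - l + 1) z ≤
        1 * noV F (vis P M r) (L - l) 0 (L - l + 1) z := mul_le_mul_of_nonneg_right h1 h2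
      _ = noV F (vis P M r) (L - l) 0 (L - l + 1) z := one_mul _
      _ ≤ _ := h4
  refine le_trans ?_ e3
  refine le_trans ?_ core
  rw [hmass']
  calc 3 / 4 / (((t : ℝ) + 1) * (d : ℝ) ^ ((k + 1) * t)) * mass 0 σ =
      3 / 4 * (mass 0 σ / (((t : ℝ) + 1) * (d : ℝ) ^ ((k + 1) * t))) := by ring
    _ ≤ 3 / 4 * EE F d l σ g := mul_le_mul_of_nonneg_left hl (by norm_num)

end Pool.Agent.H85.EM
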